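import Pool.Agent.Q230.HD.St

/-! Job HD-E of project HD (helper230): from numbers to invertible matrices. -/

set_option autoImplicit false

namespace Pool.Agent.Q162.HD

open Pool.Agent.Q230.HD Matrix

variable {K : ℕ}

theorem cf_zero (x : Row) (a : ℕ) (h : ∀ t ∈ x, t.1 ≠ a) (l : ℕ) : cf x a l = 0 := by
  induction x with
  | nil => rfl
  | cons t x ih =>
    have h1 : t.1 ≠ a := h t (by simp)
    have h2 := ih fun u hu => h u (by simp [hu])
    simp only [cf]
    rw [if_neg (fun h3 => h1 h3.1), h2]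

theorem bv_zero (x : Row) (a : ℕ) (h : ∀ t ∈ x, t.1 ≠ a) : bv K x a = 0 := by
  funext l
  change ((cf x a l : ℚ) : ℝ) = 0
  rw [cf_zero x a h l, Rat.cast_zero]

theorem cf_map (L : List (ℕ × ℚ)) (b : ℕ) (y : Row) (a l : ℕ) :
    cf ((L.map fun u => (b, u.1, (1 : ℚ))) ++ y) a l =
      if b = a ∧ l ∈ L.map Prod.fst then 1 else cf y a l := by
  induction L with
  | nil => simp
  | cons u L ih =>
    simp only [List.map_cons, List.cons_append, cf, ih, List.mem_cons]
    by_cases h1 : b = a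
    · by_cases h2 : u.1 = l
      · rw [if_pos ⟨h1, h2⟩, if_pos ⟨h1, Or.inl h2.symm⟩]
      · rw [if_neg (fun h => h2 h.2)]
        by_cases h3 : l ∈ L.map Prod.fst
        · rw [if_pos ⟨h1, h3⟩, if_pos ⟨h1, Or.inr h3⟩]
        · rw [if_neg (fun h => h3 h.2), if_neg]
          rintro ⟨-, h | h⟩
          · exact h2 h.symm
          · exact h3 h
    · rw [if_neg (fun h => h1 h.1), if_neg (fun h => h1 h.1), if_neg (fun h => h1 h.1)]

theorem cof_zero (L : List (ℕ × ℚ)) (t : ℕ) (h : t ∉ L.map Prod.fst) : cof L t = 0 := by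
  induction L with
  | nil => rfl
  | cons u L ih =>
    simp only [List.map_cons, List.mem_cons, not_or] at h
    simp only [cof]
    rw [if_neg (fun h1 => h.1 h1.symm), ih h.2]

theorem sum_cof (L : List (ℕ × ℚ)) (h : ∀ u ∈ L, u.1 < K) (hn : (L.map Prod.fst).Nodup)
    (g : ℕ → ℝ) :
    ∑ t : Fin K, (cof L t : ℝ) * g t = (L.map fun u => (u.2 : ℝ) * g u.1).sum := by
  induction L with
  | nil => simp [cof]
  | cons u L ih =>
    rw [List.map_cons, List.nodup_cons] at hn
    have hu : u.1 < K := h u (by simp)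
    have h1 := ih (fun v hv => h v (by simp [hv])) hn.2
    rw [List.map_cons, List.sum_cons, ← h1]
    have h2 : ∀ t : Fin K, (cof (u :: L) t : ℝ) * g t =
        (if (⟨u.1, hu⟩ : Fin K) = t then (u.2 : ℝ) * g t else 0) + (cof L t : ℝ) * g t := by
      intro t
      simp only [cof]
      by_cases h3 : u.1 = (t : ℕ)
      · have h4 : (⟨u.1, hu⟩ : Fin K) = t := Fin.ext h3
        rw [if_pos h3, if_pos h4, ← h3, cof_zero L u.1 hn.1, Rat.cast_zero, zero_mul, add_zero]
      · have h4 : (⟨u.1, hu⟩ : Fin K) ≠ t := fun h5 => h3 (congrArg Fin.val h5)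
        rw [if_neg h3, if_neg h4, zero_add]
    rw [Finset.sum_congr rfl fun t _ => h2 t, Finset.sum_add_distrib, Finset.sum_ite_eq,
      if_pos (Finset.mem_univ _)]

/-- the shear block -/
noncomputable def Sh (K : ℕ) (m : ℕ → ℕ → ℝ) (c : LC) : Matrix (Fin K) (Fin K) ℝ :=
  fun u t => (if u = t then m c.1 t else 0) +
    (if (u : ℕ) = c.2.1 then (cof c.2.2.1 t : ℝ) * (m c.1 t - m c.1 c.2.1) else 0)

theorem Sh_mul (m : ℕ → ℕ → ℝ) (c : LC) (y : Fin K → ℝ) (u : Fin K) :
    (Sh K m c *ᵥ y) u = m c.1 u * y u + if (u : ℕ) = c.2.1 then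
      ∑ t : Fin K, (cof c.2.2.1 t : ℝ) * ((m c.1 t - m c.1 c.2.1) * y t) else 0 := by
  change ∑ t : Fin K, Sh K m c u t * y t = _
  unfold Sh
  simp only [add_mul, ite_mul, zero_mul]
  rw [Finset.sum_add_distrib, Finset.sum_ite_eq, if_pos (Finset.mem_univ _)]
  congr 1
  by_cases h : (u : ℕ) = c.2.1
  · simp only [if_pos h, mul_assoc]
  · simp only [if_neg h, Finset.sum_const_zero]

theorem Sh_unit (m : ℕ → ℕ → ℝ) (c : LC) (_ : c.2.1 < K) (hm : ∀ t < K, m c.1 t ≠ 0) :
    IsUnit (Sh K m c) := by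
  rw [← Matrix.mulVec_injective_iff_isUnit]
  have h : ∀ y : Fin K → ℝ, Sh K m c *ᵥ y = 0 → y = 0 := by
    intro y hy
    have h1 : ∀ u : Fin K, (u : ℕ) ≠ c.2.1 → y u = 0 := by
      intro u hu
      have h2 := congrFun hy u
      rw [Sh_mul, if_neg hu, add_zero] at h2
      exact (mul_eq_zero.1 h2).resolve_left (hm u u.2)
    have h2 : ∑ t : Fin K, (cof c.2.2.1 t : ℝ) * ((m c.1 t - m c.1 c.2.1) * y t) = 0 := by
      refine Finset.sum_eq_zero fun t _ => ?_
      by_cases h3 : (t : ℕ) = c.2.1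
      · rw [h3, sub_self, zero_mul, mul_zero]
      · rw [h1 t h3, mul_zero, mul_zero]
    funext u
    by_cases h3 : (u : ℕ) = c.2.1
    · have h4 := congrFun hy u
      rw [Sh_mul, if_pos h3, h2, add_zero] at h4
      exact (mul_eq_zero.1 h4).resolve_left (hm u u.2)
    · exact h1 u h3
  intro y z hyz
  have h1 : Sh K m c *ᵥ (y - z) = 0 := by
    rw [Matrix.mulVec_sub]
    exact sub_eq_zero.2 hyz
  exact sub_eq_zero.1 (h _ h1)

/-- the matrices of the blocks -/
noncomputable def Bm (D K : ℕ) (Ls : List LC) (m : ℕ → ℕ → ℝ) (a : ℕ) :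
    Matrix (Fin K) (Fin K) ℝ :=
  if a = 0 then 1 else if a < 1 + D then diagonal (fun u : Fin K => m (a - 1) u)
    else Sh K m (Ls.getD (a - 1 - D) (0, 0, [], 0))

section

variable {D : ℕ} {Ls : List LC} {m : ℕ → ℕ → ℝ}

theorem Bm_zero : Bm D K Ls m 0 = 1 := by
  unfold Bm
  rw [if_pos rfl]

theorem Bm_reg {r : ℕ} (hr : r < D) : Bm D K Ls m (1 + r) = diagonal (fun u : Fin K => m r u) := by
  unfold Bm
  rw [if_neg (by omega), if_pos (by omega)]
  have h : 1 + r - 1 = r := by omega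
  rw [h]

theorem Bm_sh {c : LC} {i : ℕ} (h : Ls[i]? = some c) : Bm D K Ls m (1 + D + i) = Sh K m c := by
  unfold Bm
  rw [if_neg (by omega), if_neg (by omega)]
  have h1 : 1 + D + i - 1 - D = i := by omega
  rw [h1, List.getD_eq_getElem?_getD, h, Option.getD_some]

theorem dg_mul (r : ℕ) (y : Fin K → ℝ) (u : Fin K) :
    (diagonal (fun u : Fin K => m r u) *ᵥ y) u = m r u * y u := by
  rw [Matrix.mulVec_diagonal]

/-- a row with one block -/
theorem one_block (B : ℕ → Matrix (Fin K) (Fin K) ℝ) (x : Row) (b : ℕ)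
    (h : ∀ t ∈ x, t.1 = b) : ∃ v : Fin K → ℝ, ∀ a, ∃ s : ℝ, B a *ᵥ bv K x a = s • v := by
  refine ⟨B b *ᵥ bv K x b, fun a => ?_⟩
  by_cases ha : a = b
  · subst ha
    exact ⟨1, (one_smul _ _).symm⟩
  · refine ⟨0, ?_⟩
    rw [bv_zero x a (fun t ht h1 => ha (h1.symm.trans (h t ht))), Matrix.mulVec_zero, zero_smul]

/-- a row with two blocks -/
theorem two_block (B : ℕ → Matrix (Fin K) (Fin K) ℝ) (x : Row) (b b' : ℕ)
    (h : ∀ t ∈ x, t.1 = b ∨ t.1 = b') (v : Fin K → ℝ) (s s' : ℝ)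
    (h1 : B b *ᵥ bv K x b = s • v) (h2 : B b' *ᵥ bv K x b' = s' • v) :
    ∃ v : Fin K → ℝ, ∀ a, ∃ s : ℝ, B a *ᵥ bv K x a = s • v := by
  refine ⟨v, fun a => ?_⟩
  by_cases ha : a = b
  · subst ha
    exact ⟨s, h1⟩
  · by_cases ha' : a = b'
    · subst ha'
      exact ⟨s', h2⟩
    · refine ⟨0, ?_⟩
      rw [bv_zero x a, Matrix.mulVec_zero, zero_smul]
      intro t ht h3
      rcases h t ht with h4 | h4
      · exact ha (h3.symm.trans h4)
      · exact ha' (h3.symm.trans h4)

theorem row_D {r t : ℕ} (hr : r < D) :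
    ∃ v : Fin K → ℝ, ∀ a, ∃ s : ℝ,
      Bm D K Ls m a *ᵥ bv K [(0, t, 1), (1 + r, t, 1)] a = s • v := by
  have h1 : ∀ b : ℕ, b = 0 ∨ b = 1 + r → bv K [(0, t, 1), (1 + r, t, 1)] b =
      fun l : Fin K => if t = (l : ℕ) then (1 : ℝ) else 0 := by
    intro b hb
    funext l
    simp only [bv, cf]
    rcases hb with rfl | rfl
    · by_cases h2 : t = (l : ℕ)
      · simp [h2]
      · simp [h2]
    · by_cases h2 : t = (l : ℕ)
      · simp [h2]
      · simp [h2]
  refine two_block _ _ 0 (1 + r) ?_ (fun l : Fin K => if t = (l : ℕ) then (1 : ℝ) else 0) 1 (m r t) ?_ ?_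
  · intro u hu
    simp only [List.mem_cons, List.not_mem_nil, or_false] at hu
    rcases hu with rfl | rfl
    · exact Or.inl rfl
    · exact Or.inr rfl
  · rw [h1 0 (Or.inl rfl), Bm_zero, Matrix.one_mulVec, one_smul]
  · rw [h1 (1 + r) (Or.inr rfl), Bm_reg hr]
    funext l
    rw [dg_mul]
    simp only [Pi.smul_apply, smul_eq_mul]
    by_cases h2 : t = (l : ℕ)
    · rw [h2]
    · rw [if_neg h2, mul_zero, mul_zero]

theorem row_R {r r' i j : ℕ} (hr : r < D) (hr' : r' < D) (hi : i < K)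
    (hm : ∀ t < K, m r t ≠ 0) (h : m r i * m r' j = m r j * m r' i) :
    ∃ v : Fin K → ℝ, ∀ a, ∃ s : ℝ, Bm D K Ls m a *ᵥ bv K
      [(1 + r, i, 1), (1 + r, j, 1), (1 + r', i, 1), (1 + r', j, 1)] a = s • v := by
  by_cases hrr : r = r'
  · subst hrr
    refine one_block _ _ (1 + r) ?_
    intro u hu
    simp only [List.mem_cons, List.not_mem_nil, or_false] at hu
    rcases hu with rfl | rfl | rfl | rfl <;> rfl
  · have h0 : ¬ (1 + r = 1 + r') := by omega
    have h0' : ¬ (1 + r' = 1 + r) := by omega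
    have h1 : ∀ b : ℕ, b = 1 + r ∨ b = 1 + r' → bv K
        [(1 + r, i, 1), (1 + r, j, 1), (1 + r', i, 1), (1 + r', j, 1)] b =
        fun l : Fin K => if i = (l : ℕ) then (1 : ℝ) else if j = (l : ℕ) then 1 else 0 := by
      intro b hb
      funext l
      simp only [bv, cf]
      rcases hb with rfl | rfl
      · by_cases h2 : i = (l : ℕ)
        · simp [h2]
        · by_cases h3 : j = (l : ℕ)
          · simp [h2, h3]
          · simp [h2, h3]
      · by_cases h2 : i = (l : ℕ)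
        · simp [h2, h0]
        · by_cases h3 : j = (l : ℕ)
          · simp [h2, h3, h0]
          · simp [h2, h3, h0]
    refine two_block _ _ (1 + r) (1 + r') ?_
      (fun l : Fin K => m r l * if i = (l : ℕ) then (1 : ℝ) else if j = (l : ℕ) then 1 else 0)
      1 (m r' i / m r i) ?_ ?_
    · intro u hu
      simp only [List.mem_cons, List.not_mem_nil, or_false] at hu
      rcases hu with rfl | rfl | rfl | rfl
      · exact Or.inl rfl
      · exact Or.inl rfl
      · exact Or.inr rfl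
      · exact Or.inr rfl
    · rw [h1 _ (Or.inl rfl), Bm_reg hr, one_smul]
      funext l
      rw [dg_mul]
    · rw [h1 _ (Or.inr rfl), Bm_reg hr']
      funext l
      rw [dg_mul]
      simp only [Pi.smul_apply, smul_eq_mul]
      have h5 := hm i hi
      by_cases h2 : i = (l : ℕ)
      · rw [if_pos h2, mul_one, mul_one, ← h2, div_mul_cancel₀ _ h5]
      · by_cases h3 : j = (l : ℕ)
        · rw [if_neg h2, if_pos h3, mul_one, mul_one, ← h3, div_mul_eq_mul_div, eq_div_iff h5]
          linarith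
        · rw [if_neg h2, if_neg h3, mul_zero, mul_zero, mul_zero]

/-- the vectors `f_t` -/
theorem row_L1 {c : LC} {i : ℕ} (hc : LOK D K c) (hi : Ls[i]? = some c) {t : ℕ} (ht : t < K) :
    ∃ v : Fin K → ℝ, ∀ a, ∃ s : ℝ, Bm D K Ls m a *ᵥ bv K
      [(0, t, 1), (0, c.2.1, cof c.2.2.1 t), (1 + D + i, t, 1),
        (1 + D + i, c.2.1, cof c.2.2.1 t)] a = s • v := by
  obtain ⟨hr, hp, hL, hn, hne, hs⟩ := hc
  have h0 : ¬ (0 = 1 + D + i) := by omega
  have h1 : ∀ b : ℕ, b = 0 ∨ b = 1 + D + i → bv K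
      [(0, t, 1), (0, c.2.1, cof c.2.2.1 t), (1 + D + i, t, 1),
        (1 + D + i, c.2.1, cof c.2.2.1 t)] b =
      fun l : Fin K => if t = (l : ℕ) then (1 : ℝ) else
        if c.2.1 = (l : ℕ) then (cof c.2.2.1 t : ℝ) else 0 := by
    intro b hb
    funext l
    simp only [bv, cf]
    rcases hb with rfl | rfl
    · by_cases h2 : t = (l : ℕ)
      · simp [h2]
      · by_cases h3 : c.2.1 = (l : ℕ)
        · simp [h2, h3]
        · simp [h2, h3]
    · by_cases h2 : t = (l : ℕ)
      · simp [h2, h0]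
      · by_cases h3 : c.2.1 = (l : ℕ)
        · simp [h2, h3, h0]
        · simp [h2, h3, h0]
  refine two_block _ _ 0 (1 + D + i) ?_
    (fun l : Fin K => if t = (l : ℕ) then (1 : ℝ) else
      if c.2.1 = (l : ℕ) then (cof c.2.2.1 t : ℝ) else 0) 1 (m c.1 t) ?_ ?_
  · intro u hu
    simp only [List.mem_cons, List.not_mem_nil, or_false] at hu
    rcases hu with rfl | rfl | rfl | rfl
    · exact Or.inl rfl
    · exact Or.inl rfl
    · exact Or.inr rfl
    · exact Or.inr rfl
  · rw [h1 0 (Or.inl rfl), Bm_zero, Matrix.one_mulVec, one_smul]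
  · rw [h1 _ (Or.inr rfl), Bm_sh hi]
    have h4 : ∑ u : Fin K, (cof c.2.2.1 u : ℝ) * ((m c.1 u - m c.1 c.2.1) *
        (if t = (u : ℕ) then (1 : ℝ) else if c.2.1 = (u : ℕ) then (cof c.2.2.1 t : ℝ) else 0)) =
        (cof c.2.2.1 t : ℝ) * (m c.1 t - m c.1 c.2.1) := by
      rw [Finset.sum_eq_single (⟨t, ht⟩ : Fin K)]
      · rw [if_pos rfl, mul_one]
      · intro u _ hu
        have h5 : t ≠ (u : ℕ) := fun h5 => hu (Fin.ext h5.symm)
        rw [if_neg h5]
        by_cases h6 : c.2.1 = (u : ℕ)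
        · rw [← h6, sub_self, zero_mul, mul_zero]
        · rw [if_neg h6, mul_zero, mul_zero]
      · intro h
        exact absurd (Finset.mem_univ _) h
    funext l
    rw [Sh_mul, h4]
    simp only [Pi.smul_apply, smul_eq_mul]
    by_cases h2 : t = (l : ℕ)
    · rw [if_pos h2, ← h2]
      by_cases h3 : t = c.2.1
      · rw [if_pos h3, h3, sub_self, mul_zero, add_zero]
      · rw [if_neg h3, add_zero]
    · rw [if_neg h2]
      by_cases h3 : c.2.1 = (l : ℕ)
      · rw [if_pos h3, if_pos h3.symm, ← h3]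
        ring
      · rw [if_neg h3, if_neg (fun h => h3 h.symm), mul_zero, mul_zero, add_zero]

/-- the last row of a linear constraint -/
theorem row_L2 {c : LC} {i : ℕ} (hc : LOK D K c) (hi : Ls[i]? = some c) (hH : LH m c) :
    ∃ v : Fin K → ℝ, ∀ a, ∃ s : ℝ, Bm D K Ls m a *ᵥ bv K
      ((c.2.2.1.map fun u => (1 + D + i, u.1, (1 : ℚ))) ++ [(1 + D + i, c.2.1, c.2.2.2)] ++
        (c.2.2.1.map fun u => (1 + c.1, u.1, (1 : ℚ))) ++ [(1 + c.1, c.2.1, 1)]) a = s • v := by
  obtain ⟨hr, hp, hL, hn, hne, hs⟩ := hc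
  have h0 : ¬ (1 + c.1 = 1 + D + i) := by omega
  have h0' : ¬ (1 + D + i = 1 + c.1) := by omega
  have hpF : c.2.1 ∉ c.2.2.1.map Prod.fst := by
    intro h
    obtain ⟨u, hu, hu'⟩ := List.mem_map.1 h
    exact (hL u hu).2 hu'
  have hx : ((c.2.2.1.map fun u => (1 + D + i, u.1, (1 : ℚ))) ++ [(1 + D + i, c.2.1, c.2.2.2)] ++
        (c.2.2.1.map fun u => (1 + c.1, u.1, (1 : ℚ))) ++ [(1 + c.1, c.2.1, 1)]) =
      (c.2.2.1.map fun u => (1 + D + i, u.1, (1 : ℚ))) ++ ((1 + D + i, c.2.1, c.2.2.2) ::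
        ((c.2.2.1.map fun u => (1 + c.1, u.1, (1 : ℚ))) ++ [(1 + c.1, c.2.1, 1)])) := by
    simp only [List.append_assoc, List.cons_append, List.nil_append]
  rw [hx]
  have e1 : bv K ((c.2.2.1.map fun u => (1 + D + i, u.1, (1 : ℚ))) ++
      ((1 + D + i, c.2.1, c.2.2.2) ::
        ((c.2.2.1.map fun u => (1 + c.1, u.1, (1 : ℚ))) ++ [(1 + c.1, c.2.1, 1)]))) (1 + D + i) =
      fun l : Fin K => if (l : ℕ) ∈ c.2.2.1.map Prod.fst then (1 : ℝ) else
        if c.2.1 = (l : ℕ) then (c.2.2.2 : ℝ) else 0 := by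
    funext l
    simp only [bv]
    rw [cf_map]
    simp only [cf]
    rw [cf_map]
    simp only [cf, h0, false_and, if_false, true_and]
    split_ifs <;> simp
  have e2 : bv K ((c.2.2.1.map fun u => (1 + D + i, u.1, (1 : ℚ))) ++
      ((1 + D + i, c.2.1, c.2.2.2) ::
        ((c.2.2.1.map fun u => (1 + c.1, u.1, (1 : ℚ))) ++ [(1 + c.1, c.2.1, 1)]))) (1 + c.1) =
      fun l : Fin K => if (l : ℕ) ∈ c.2.2.1.map Prod.fst then (1 : ℝ) else
        if c.2.1 = (l : ℕ) then (1 : ℝ) else 0 := by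
    funext l
    simp only [bv]
    rw [cf_map]
    simp only [cf]
    rw [cf_map]
    simp only [cf, h0', false_and, if_false, true_and]
    split_ifs <;> simp
  refine two_block _ _ (1 + D + i) (1 + c.1) ?_
    (fun l : Fin K => m c.1 l * if (l : ℕ) ∈ c.2.2.1.map Prod.fst then (1 : ℝ) else
        if c.2.1 = (l : ℕ) then (1 : ℝ) else 0) 1 1 ?_ ?_
  · intro u hu
    simp only [List.mem_append, List.mem_cons, List.mem_map, List.not_mem_nil, or_false] at hu
    rcases hu with ⟨v, _, rfl⟩ | rfl | ⟨v, _, rfl⟩ | rfl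
    · exact Or.inl rfl
    · exact Or.inl rfl
    · exact Or.inr rfl
    · exact Or.inr rfl
  · rw [e1, Bm_sh hi, one_smul]
    have h4 : ∑ u : Fin K, (cof c.2.2.1 u : ℝ) * ((m c.1 u - m c.1 c.2.1) *
        (if (u : ℕ) ∈ c.2.2.1.map Prod.fst then (1 : ℝ) else
          if c.2.1 = (u : ℕ) then (c.2.2.2 : ℝ) else 0)) =
        m c.1 c.2.1 - m c.1 c.2.1 * (c.2.2.2 : ℝ) := by
      have h5 := sum_cof (K := K) c.2.2.1 (fun u hu => (hL u hu).1) hn (fun u =>
        (m c.1 u - m c.1 c.2.1) * (if u ∈ c.2.2.1.map Prod.fst then (1 : ℝ) else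
          if c.2.1 = u then (c.2.2.2 : ℝ) else 0))
      rw [h5]
      have h6 : (c.2.2.1.map fun u => (u.2 : ℝ) * ((m c.1 u.1 - m c.1 c.2.1) *
          (if u.1 ∈ c.2.2.1.map Prod.fst then (1 : ℝ) else
            if c.2.1 = u.1 then (c.2.2.2 : ℝ) else 0))) =
          c.2.2.1.map fun u => (u.2 : ℝ) * m c.1 u.1 - m c.1 c.2.1 * (u.2 : ℝ) := by
        refine List.map_congr_left fun u hu => ?_
        rw [if_pos (List.mem_map_of_mem hu)]
        ring
      rw [h6]
      have h7 : ∀ L : List (ℕ × ℚ), (L.map fun u => (u.2 : ℝ) * m c.1 u.1 -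
          m c.1 c.2.1 * (u.2 : ℝ)).sum = (L.map fun u => (u.2 : ℝ) * m c.1 u.1).sum -
            m c.1 c.2.1 * ((L.map Prod.snd).sum : ℚ) := by
        intro L
        induction L with
        | nil => simp
        | cons u L ih =>
          simp only [List.map_cons, List.sum_cons, ih]
          push_cast
          ring
      have h8 : m c.1 c.2.1 = (c.2.2.1.map fun u => (u.2 : ℝ) * m c.1 u.1).sum := hH
      rw [h7, ← h8, ← hs]
    funext l
    rw [Sh_mul, h4]
    by_cases h2 : (l : ℕ) ∈ c.2.2.1.map Prod.fst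
    · have h3 : ¬ (l : ℕ) = c.2.1 := fun h => hpF (h ▸ h2)
      simp only [if_neg h3, if_pos h2, add_zero]
    · by_cases h3 : c.2.1 = (l : ℕ)
      · simp only [if_neg h2, if_pos h3, if_pos h3.symm]
        rw [← h3]
        ring
      · have h5 : ¬ (l : ℕ) = c.2.1 := fun h => h3 h.symm
        simp only [if_neg h2, if_neg h3, if_neg h5, mul_zero, add_zero]
  · rw [e2, Bm_reg hr, one_smul]
    funext l
    rw [dg_mul]

end

theorem se : S_E := by
  intro D K Ls Rs hLs hRs ⟨m, hm, hL, hR⟩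
  refine ⟨Bm D K Ls m, ?_, ?_⟩
  · intro a ha
    by_cases h0 : a = 0
    · subst h0
      rw [Bm_zero]
      exact isUnit_one
    · by_cases h1 : a < 1 + D
      · obtain ⟨r, rfl⟩ : ∃ r, a = 1 + r := ⟨a - 1, by omega⟩
        have hr : r < D := by omega
        rw [Bm_reg hr, Matrix.isUnit_diagonal, Pi.isUnit_iff]
        intro u
        exact isUnit_iff_ne_zero.2 (hm r hr u u.2)
      · obtain ⟨i, rfl⟩ : ∃ i, a = 1 + D + i := ⟨a - 1 - D, by omega⟩
        have hi : i < Ls.length := by omega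
        have h2 : Ls[i]? = some Ls[i] := List.getElem?_eq_getElem hi
        rw [Bm_sh h2]
        have h3 := hLs Ls[i] (List.getElem_mem hi)
        exact Sh_unit m _ h3.2.1 (hm _ h3.1)
  · intro x hx
    have key : ∃ v : Fin K → ℝ, ∀ a, ∃ s : ℝ, Bm D K Ls m a *ᵥ bv K x a = s • v := by
      unfold rws at hx
      simp only [List.mem_append] at hx
      rcases hx with (((hx | hx) | hx) | hx) | hx
      · unfold rowsU at hx
        simp only [List.mem_flatMap, List.mem_map, List.mem_range] at hx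
        obtain ⟨b, _, l, _, rfl⟩ := hx
        refine one_block _ _ b ?_
        intro u hu
        simp only [List.mem_cons, List.not_mem_nil, or_false] at hu
        subst hu
        rfl
      · unfold rowsP at hx
        simp only [List.mem_flatMap, List.mem_map, List.mem_range] at hx
        obtain ⟨b, _, l, _, l', _, rfl⟩ := hx
        refine one_block _ _ b ?_
        intro u hu
        simp only [List.mem_cons, List.not_mem_nil, or_false] at hu
        rcases hu with rfl | rfl <;> rfl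
      · unfold rowsD at hx
        simp only [List.mem_flatMap, List.mem_map, List.mem_range] at hx
        obtain ⟨r, hr, t, _, rfl⟩ := hx
        exact row_D hr
      · simp only [List.mem_flatMap] at hx
        obtain ⟨⟨c, i⟩, hq, hx⟩ := hx
        have hi : Ls[i]? = some c := List.mem_zipIdx_iff_getElem?.1 hq
        have hc : c ∈ Ls := List.mem_of_getElem? hi
        unfold rowsL at hx
        simp only [List.mem_append, List.mem_map, List.mem_range] at hx
        rcases hx with ⟨t, ht, rfl⟩ | hx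
        · exact row_L1 (hLs c hc) hi ht
        · have hx' := List.mem_singleton.1 hx
          rw [hx']
          exact row_L2 (hLs c hc) hi (hL c hc)
      · simp only [List.mem_map] at hx
        obtain ⟨c, hc, rfl⟩ := hx
        have h1 := hRs c hc
        exact row_R h1.1 h1.2.1 h1.2.2.1 (hm _ h1.1) (hR c hc)
    obtain ⟨v, hv⟩ := key
    exact ⟨v, fun a _ => hv a⟩

end Pool.Agent.Q162.HD
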